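import Pool.Agent.KS6_33.FD.Lower

/-!
# The limit of the fractional dimension of the convex geometries `P(k, n)` (MP_4df60b_co, Q1)

`ConvGeom k n` is the convex geometry `P(k, n)`: the sets `A ⊆ {1, …, n}` such that `|A| = k + i - 1`
implies `{1, …, i - 1} ⊆ A` (`i ≥ 1`), ordered by inclusion; `fdim P` is the fractional dimension of
the finite poset `P`: the least total weight of a fractional realizer (and `1` for a chain).

**Theorem.** For every `k ≥ 1` the fractional dimension of `P(k, n)` tends, for `n → ∞`, to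
`(k + 1) ^ (k + 1) / k ^ k`. This is `4 = 2 ^ (k + 1)` for `k = 1` and less than `2 ^ (k + 1)` for all
`k ≥ 2`, so that the assertion of Q1 is true exactly for `k = 1`.

The upper bound `fdim (P(k, n)) ≤ (k + 1) ^ (k + 1) / k ^ k` is known from an earlier run
(`Pool.Agent.R128.FracDim.fdim_le`, which is used here); the new part is the lower bound.

Proof of the lower bound. For a linear extension `L` let `R` be the set of its records: the `x` with
`{x}` above all `{i}`, `i < x`. If `{j}` is above `{1, …, j - 1} ∪ {s_1, …, s_k}` in `L`, where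
`j < s_1 < ⋯ < s_k`, then `j ∈ R` and `s_i ∉ R` for all `i`. So in a fractional realizer the linear
extensions `L` with this property of `R` have total weight at least `1`, for all
`j < s_1 < ⋯ < s_k`. Divide `{1, …, (k + 1) ^ T}` into blocks of length `(k + 1) ^ t` for all `t ≤ T`,
and take the mean over `j` and `s_1, …, s_k` in `k + 1` consecutive blocks of length `(k + 1) ^ t`
which form a block of length `(k + 1) ^ (t + 1)`. If the densities of `R` in these `k + 1` blocks are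
`d_0, …, d_k` this gives `∑_L w(L) d_0 (1 - d_1) ⋯ (1 - d_k) ≥ 1`. The mean square deviation of the
`d_i` from their mean `d`, summed over the levels `t < T`, is at most `1` (energy increment), so on
average over `t` it is at most `1 / T`, and `d (1 - d) ^ k ≤ k ^ k / (k + 1) ^ (k + 1)`.
-/

set_option autoImplicit false

namespace Pool.Agent.Results.MP_4df60b_co.ExactLimit

open Pool.Agent.R128.FracDim Pool.Agent.KS6_33.FD Filter Topology

lemma bound_lt (k : ℕ) (hk : 2 ≤ k) : ((k : ℝ) + 1) ^ (k + 1) / (k : ℝ) ^ k < 2 ^ (k + 1) := by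
  have hk0 : (0 : ℝ) < k := by exact_mod_cast (by omega : 0 < k)
  rw [div_lt_iff₀ (pow_pos hk0 k)]
  induction k, hk using Nat.le_induction with
  | base => norm_num
  | succ k hk ih =>
    have hk1 : (0 : ℝ) < k := by exact_mod_cast (by omega : 0 < k)
    have h := ih hk1
    push_cast
    have key : ((k : ℝ) + 1 + 1) ^ (k + 1 + 1) * (k : ℝ) ^ k ≤
        2 * (((k : ℝ) + 1) ^ (k + 1) * ((k : ℝ) + 1) ^ (k + 1)) := by
      have e1 : ((k : ℝ) + 1 + 1) ^ (k + 1 + 1) * (k : ℝ) ^ k =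
          (((k : ℝ) + 1 + 1) * k) ^ k * ((k : ℝ) + 1 + 1) ^ 2 := by
        rw [mul_pow]; ring
      have e2 : 2 * (((k : ℝ) + 1) ^ (k + 1) * ((k : ℝ) + 1) ^ (k + 1)) =
          (((k : ℝ) + 1) * ((k : ℝ) + 1)) ^ k * (2 * ((k : ℝ) + 1) ^ 2) := by
        rw [mul_pow]; ring
      have hk2 : (2 : ℝ) ≤ k := by exact_mod_cast hk
      rw [e1, e2]
      apply mul_le_mul
      · apply pow_le_pow_left₀ (by positivity)
        nlinarith
      · nlinarith
      · positivity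
      · positivity
    have h3 : ((k : ℝ) + 1) ^ (k + 1) * ((k : ℝ) + 1) ^ (k + 1) <
        ((k : ℝ) + 1) ^ (k + 1) * (2 ^ (k + 1) * (k : ℝ) ^ k) :=
      mul_lt_mul_of_pos_left h (by positivity)
    have h4 : ((k : ℝ) + 1 + 1) ^ (k + 1 + 1) * (k : ℝ) ^ k <
        2 ^ (k + 1 + 1) * ((k : ℝ) + 1) ^ (k + 1) * (k : ℝ) ^ k := by
      have e3 : (2 : ℝ) ^ (k + 1 + 1) * ((k : ℝ) + 1) ^ (k + 1) * (k : ℝ) ^ k =
          2 * (((k : ℝ) + 1) ^ (k + 1) * (2 ^ (k + 1) * (k : ℝ) ^ k)) := by ring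
      rw [e3]
      linarith
    exact lt_of_mul_lt_mul_right h4 (by positivity)

/-- The limit. -/
lemma tendsto_fdim (k : ℕ) (hk : 1 ≤ k) :
    Tendsto (fun n => fdim (ConvGeom k n)) atTop (𝓝 (((k : ℝ) + 1) ^ (k + 1) / (k : ℝ) ^ k)) := by
  have hk0 : (0 : ℝ) < k := by exact_mod_cast hk
  set c : ℝ := (k : ℝ) ^ k / ((k : ℝ) + 1) ^ (k + 1) with hc
  have hc0 : 0 < c := by positivity
  have hci : ((k : ℝ) + 1) ^ (k + 1) / (k : ℝ) ^ k = 1 / c := by rw [hc, one_div_div]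
  have h1 : Tendsto (fun s : ℕ => 1 / (c + ((k : ℝ) + 1) / s)) atTop (𝓝 (1 / c)) := by
    have h2 : Tendsto (fun s : ℕ => c + ((k : ℝ) + 1) / s) atTop (𝓝 (c + 0)) :=
      tendsto_const_nhds.add (tendsto_const_div_atTop_nhds_zero_nat _)
    rw [add_zero] at h2
    exact tendsto_const_nhds.div h2 hc0.ne'
  rw [hci]
  rw [Metric.tendsto_atTop] at h1 ⊢
  intro ε hε
  obtain ⟨s, hs⟩ := h1 ε hε
  refine ⟨(k + 1) ^ ((s + 1) ^ 2), fun n hn => ?_⟩
  have h3 := hs (s + 1) (by omega)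
  have h4 := lower (k := k) (n := n) hk (s + 1) (by omega) hn
  have h5 := fdim_le k n hk
  rw [hci] at h5
  rw [Real.dist_eq, abs_lt] at h3 ⊢
  constructor <;> linarith [h3.1, h3.2]

/-- **Theorem.** (1) `fdim (P(k, n)) ≤ (k + 1) ^ (k + 1) / k ^ k` for all `n`, and (2) an explicit lower
bound; therefore (3) `fdim (P(k, n))` tends to `(k + 1) ^ (k + 1) / k ^ k` for `n → ∞`, for every
`k ≥ 1`. (4) For `k ≥ 1` the assertion of Q1 for this `k` holds if and only if `k = 1`. -/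
theorem result :
    (∀ k n : ℕ, 1 ≤ k → k + 2 ≤ n →
      fdim (ConvGeom k n) ≤ ((k : ℝ) + 1) ^ (k + 1) / (k : ℝ) ^ k) ∧
    (∀ k n s : ℕ, 1 ≤ k → 1 ≤ s → (k + 1) ^ (s ^ 2) ≤ n →
      1 / ((k : ℝ) ^ k / ((k : ℝ) + 1) ^ (k + 1) + ((k : ℝ) + 1) / s) ≤ fdim (ConvGeom k n)) ∧
    (∀ k : ℕ, 1 ≤ k →
      Tendsto (fun n => fdim (ConvGeom k n)) atTop (𝓝 (((k : ℝ) + 1) ^ (k + 1) / (k : ℝ) ^ k))) ∧
    (∀ k : ℕ, 1 ≤ k →
      ((∀ ε : ℝ, 0 < ε → ∃ n₀ : ℕ, ∀ n : ℕ, n₀ ≤ n → k + 2 ≤ n →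
        (2 : ℝ) ^ (k + 1) - ε < fdim (ConvGeom k n)) ↔ k = 1)) := by
  refine ⟨fun k n hk _ => fdim_le k n hk, fun k n s hk hs hn => lower hk s hs hn, tendsto_fdim,
    fun k hk => ⟨fun h => ?_, ?_⟩⟩
  · by_contra hne
    have h1 := bound_lt k (by omega)
    obtain ⟨n₀, h2⟩ := h (2 ^ (k + 1) - ((k : ℝ) + 1) ^ (k + 1) / (k : ℝ) ^ k) (by linarith)
    have h3 := h2 (n₀ + k + 2) (by omega) (by omega)
    have h4 := fdim_le k (n₀ + k + 2) hk
    linarith
  · rintro rfl ε hε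
    have h1 := tendsto_fdim 1 le_rfl
    rw [Metric.tendsto_atTop] at h1
    obtain ⟨n₀, h2⟩ := h1 ε hε
    refine ⟨n₀, fun n hn _ => ?_⟩
    have h3 := h2 n hn
    rw [Real.dist_eq, abs_lt] at h3
    norm_num at h3 ⊢
    linarith [h3.1]

end Pool.Agent.Results.MP_4df60b_co.ExactLimit
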